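import Mathlib

/-! # The affine group over the power series ring of a finite field, acting on words -/

namespace Pool.Agent.W61h.LT

open PowerSeries

section
variable {F : Type} [Field F]

/-- the series of a word -/
noncomputable def ser (w : List F) : PowerSeries F := PowerSeries.mk (fun i => w.getD i 0)

theorem coeff_ser (w : List F) (i : ℕ) : coeff i (ser w) = w.getD i 0 := coeff_mk _ _

/-- `w ↦ a w + b`, truncated -/
noncomputable def act (a b : PowerSeries F) (w : List F) : List F :=
  List.ofFn (fun i : Fin w.length => coeff i (a * ser w + b))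

theorem act_length (a b : PowerSeries F) (w : List F) : (act a b w).length = w.length := by
  rw [act, List.length_ofFn]

theorem getD_act (a b : PowerSeries F) (w : List F) (i : ℕ) (hi : i < w.length) :
    (act a b w).getD i 0 = coeff i (a * ser w + b) := by
  rw [act, List.getD_eq_getElem _ _ (by rw [List.length_ofFn]; exact hi), List.getElem_ofFn]

/-- lists with the same length and the same entries -/
theorem list_ext {v w : List F} (h : v.length = w.length)
    (h2 : ∀ i < v.length, v.getD i 0 = w.getD i 0) : v = w := by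
  apply List.ext_getElem h
  intro i h3 h4
  have := h2 i h3
  rwa [List.getD_eq_getElem _ _ h3, List.getD_eq_getElem _ _ h4] at this

theorem coeff_mul_congr (a f g : PowerSeries F) (i : ℕ) (h : ∀ k ≤ i, coeff k f = coeff k g) :
    coeff i (a * f) = coeff i (a * g) := by
  rw [coeff_mul, coeff_mul]
  refine Finset.sum_congr rfl (fun p hp => ?_)
  have hp' := Finset.HasAntidiagonal.mem_antidiagonal.1 hp
  rw [h p.2 (by omega)]

theorem coeff_mul_congr' (a a' f : PowerSeries F) (i : ℕ) (h : ∀ k ≤ i, coeff k a = coeff k a') :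
    coeff i (a * f) = coeff i (a' * f) := by
  rw [mul_comm a, mul_comm a']
  exact coeff_mul_congr f a a' i h

theorem coeff_ser_act (a b : PowerSeries F) (w : List F) (i : ℕ) (hi : i < w.length) :
    coeff i (ser (act a b w)) = coeff i (a * ser w + b) := by
  rw [coeff_ser, getD_act a b w i hi]

theorem act_act (a b a' b' : PowerSeries F) (w : List F) :
    act a b (act a' b' w) = act (a * a') (a * b' + b) w := by
  apply list_ext
  · rw [act_length, act_length, act_length]
  · intro i hi
    rw [act_length, act_length] at hi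
    rw [getD_act _ _ _ _ (by rw [act_length]; exact hi), getD_act _ _ _ _ hi, map_add, map_add,
      coeff_mul_congr a (ser (act a' b' w)) (a' * ser w + b') i
        (fun k hk => coeff_ser_act a' b' w k (by omega)), ← map_add, ← map_add]
    congr 1
    ring

theorem act_one_zero (w : List F) : act 1 0 w = w := by
  apply list_ext (act_length _ _ _)
  intro i hi
  rw [act_length] at hi
  rw [getD_act _ _ _ _ hi, one_mul, add_zero, coeff_ser]

theorem act_prefix (a b : PowerSeries F) {v w : List F} (h : v <+: w) :
    act a b v <+: act a b w := by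
  obtain ⟨u, rfl⟩ := h
  rw [List.prefix_iff_eq_take]
  apply list_ext
  · rw [List.length_take, act_length, act_length, List.length_append]
    omega
  · intro i hi
    rw [act_length] at hi
    have h1 : i < (v ++ u).length := by rw [List.length_append]; omega
    rw [getD_act _ _ _ _ hi]
    have h2 : ((act a b (v ++ u)).take (act a b v).length).getD i 0 = (act a b (v ++ u)).getD i 0 := by
      rw [List.getD_eq_getElem?_getD, List.getD_eq_getElem?_getD, List.getElem?_take,
        if_pos (by rw [act_length]; exact hi)]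
    rw [h2, getD_act _ _ _ _ h1, map_add, map_add]
    congr 1
    apply coeff_mul_congr
    intro k hk
    rw [coeff_ser, coeff_ser, List.getD_append _ _ _ _ (by omega)]

/-- the affine permutation -/
noncomputable def aff (a : (PowerSeries F)ˣ) (b : PowerSeries F) : Equiv.Perm (List F) where
  toFun := act a b
  invFun := act (a⁻¹ : (PowerSeries F)ˣ) (-((a⁻¹ : (PowerSeries F)ˣ) * b))
  left_inv := by
    intro w
    rw [act_act, Units.inv_mul, add_neg_cancel, act_one_zero]
  right_inv := by
    intro w
    rw [act_act, Units.mul_inv, mul_neg, ← mul_assoc, Units.mul_inv, one_mul, neg_add_cancel,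
      act_one_zero]

theorem aff_apply (a : (PowerSeries F)ˣ) (b : PowerSeries F) (w : List F) :
    aff a b w = act a b w := rfl

/-- The affine group. -/
noncomputable def affGroup (F : Type) [Field F] : Subgroup (Equiv.Perm (List F)) where
  carrier := {g | ∃ (a : (PowerSeries F)ˣ) (b : PowerSeries F), g = aff a b}
  mul_mem' := by
    rintro g h ⟨a, b, rfl⟩ ⟨a', b', rfl⟩
    refine ⟨a * a', a * b' + b, ?_⟩
    apply Equiv.ext
    intro w
    rw [Equiv.Perm.mul_apply, aff_apply, aff_apply, aff_apply, act_act, Units.val_mul]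
  one_mem' := ⟨1, 0, by
    apply Equiv.ext
    intro w
    rw [aff_apply, Units.val_one, act_one_zero, Equiv.Perm.one_apply]⟩
  inv_mem' := by
    rintro g ⟨a, b, rfl⟩
    refine ⟨a⁻¹, -((a⁻¹ : (PowerSeries F)ˣ) * b), ?_⟩
    apply Equiv.ext
    intro w
    rfl

theorem mem_affGroup {g : Equiv.Perm (List F)} :
    g ∈ affGroup F ↔ ∃ (a : (PowerSeries F)ˣ) (b : PowerSeries F), g = aff a b := Iff.rfl

theorem aff_trans (v w : List F) (h : v.length = w.length) : ∃ g ∈ affGroup F, g v = w := by
  refine ⟨aff 1 (ser w - ser v), ⟨1, _, rfl⟩, ?_⟩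
  rw [aff_apply]
  apply list_ext
  · rw [act_length, h]
  · intro i hi
    rw [act_length] at hi
    rw [getD_act _ _ _ _ hi, Units.val_one, one_mul, add_sub_cancel, coeff_ser]

/-! ### truncated coefficients -/

/-- the polynomial with the given coefficients -/
noncomputable def pol {n : ℕ} (c : Fin n → F) : PowerSeries F :=
  PowerSeries.mk (fun i => if h : i < n then c ⟨i, h⟩ else 0)

theorem coeff_pol {n : ℕ} (c : Fin n → F) (i : Fin n) : coeff (i : ℕ) (pol c) = c i := by
  rw [pol, coeff_mk, dif_pos i.2]

/-- the action on words of length `n` depends on the first `n` coefficients -/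
theorem act_congr {n : ℕ} {a a' b b' : PowerSeries F} (ha : ∀ i < n, coeff i a = coeff i a')
    (hb : ∀ i < n, coeff i b = coeff i b') (v : List F) (hv : v.length = n) :
    act a b v = act a' b' v := by
  apply list_ext
  · rw [act_length, act_length]
  · intro i hi
    rw [act_length, hv] at hi
    rw [getD_act _ _ _ _ (by omega), getD_act _ _ _ _ (by omega), map_add, map_add, hb i hi,
      coeff_mul_congr' a a' (ser v) i (fun k hk => ha k (by omega))]

/-- solvability of `c v + b = 0` -/
def SP {n : ℕ} (c b : Fin n → F) : Prop := ∀ i, (∀ j ≤ i, c j = 0) → b i = 0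

theorem act_fix_iff {n : ℕ} (c b : Fin n → F) :
    (∃ v : List F, v.length = n ∧ act (1 + pol c) (pol b) v = v) ↔ SP c b := by
  constructor
  · rintro ⟨v, hv, hav⟩ i hi
    have h1 : coeff (i : ℕ) ((1 + pol c) * ser v + pol b) = v.getD i 0 := by
      rw [← getD_act _ _ _ _ (by rw [hv]; exact i.2), hav]
    rw [map_add, add_mul, one_mul, map_add, coeff_ser, coeff_pol, coeff_mul,
      Finset.sum_eq_zero, add_zero] at h1
    · exact left_eq_add.1 h1.symm
    · intro p hp
      have hp' := Finset.HasAntidiagonal.mem_antidiagonal.1 hp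
      have h2 : p.1 < n := by have := i.2; omega
      have h3 := coeff_pol c ⟨p.1, h2⟩
      rw [show ((⟨p.1, h2⟩ : Fin n) : ℕ) = p.1 from rfl] at h3
      rw [h3, hi ⟨p.1, h2⟩ (by rw [Fin.le_def]; show p.1 ≤ (i : ℕ); omega), zero_mul]
  · intro hs
    -- a series `s` with `pol c * s + pol b = 0` up to degree `n`
    obtain ⟨s, hs1⟩ : ∃ s : PowerSeries F, ∀ i < n, coeff i (pol c * s + pol b) = 0 := by
      by_cases hc : ∀ j, c j = 0
      · refine ⟨0, fun i hi => ?_⟩
        rw [mul_zero, zero_add]
        have := coeff_pol b ⟨i, hi⟩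
        rw [show ((⟨i, hi⟩ : Fin n) : ℕ) = i from rfl] at this
        rw [this]
        exact hs ⟨i, hi⟩ (fun j _ => hc j)
      · push Not at hc
        classical
        obtain ⟨m, hm, hmin⟩ : ∃ m : Fin n, c m ≠ 0 ∧ ∀ j < m, c j = 0 := by
          have hne : (Finset.univ.filter (fun j => c j ≠ 0)).Nonempty := by
            obtain ⟨j, hj⟩ := hc
            exact ⟨j, Finset.mem_filter.2 ⟨Finset.mem_univ _, hj⟩⟩
          refine ⟨(Finset.univ.filter (fun j => c j ≠ 0)).min' hne,
            (Finset.mem_filter.1 (Finset.min'_mem _ hne)).2, fun j hj => ?_⟩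
          by_contra hcj
          have := Finset.min'_le (Finset.univ.filter (fun j => c j ≠ 0)) j
            (Finset.mem_filter.2 ⟨Finset.mem_univ _, hcj⟩)
          exact absurd hj (not_lt.2 this)
        have hcX : (X : PowerSeries F) ^ (m : ℕ) ∣ pol c := by
          rw [X_pow_dvd_iff]
          intro k hk
          have := coeff_pol c ⟨k, hk.trans m.2⟩
          rw [show ((⟨k, hk.trans m.2⟩ : Fin n) : ℕ) = k from rfl] at this
          rw [this]
          exact hmin _ (by rw [Fin.lt_def]; exact hk)
        have hbX : (X : PowerSeries F) ^ (m : ℕ) ∣ pol b := by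
          rw [X_pow_dvd_iff]
          intro k hk
          have := coeff_pol b ⟨k, hk.trans m.2⟩
          rw [show ((⟨k, hk.trans m.2⟩ : Fin n) : ℕ) = k from rfl] at this
          rw [this]
          refine hs _ (fun j hj => hmin _ ?_)
          rw [Fin.lt_def]
          rw [Fin.le_def] at hj
          exact lt_of_le_of_lt hj hk
        obtain ⟨u, hu⟩ := hcX
        obtain ⟨b', hb'⟩ := hbX
        have hu0 : constantCoeff u ≠ 0 := by
          intro h0
          apply hm
          have h1 := coeff_pol c m
          rw [hu] at h1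
          have h2 := coeff_X_pow_mul u (m : ℕ) 0
          rw [zero_add] at h2
          rw [h2, coeff_zero_eq_constantCoeff_apply] at h1
          rw [← h1, h0]
        obtain ⟨w, hw⟩ := (isUnit_iff_constantCoeff.2 (isUnit_iff_ne_zero.2 hu0) : IsUnit u)
        refine ⟨-((w⁻¹ : (PowerSeries F)ˣ) * b'), fun i _ => ?_⟩
        have : pol c * -(((w⁻¹ : (PowerSeries F)ˣ) : PowerSeries F) * b') + pol b = 0 := by
          rw [hu, hb', ← hw]
          have : (X : PowerSeries F) ^ (m : ℕ) * (w : PowerSeries F) *
              -(((w⁻¹ : (PowerSeries F)ˣ) : PowerSeries F) * b') =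
              -((X : PowerSeries F) ^ (m : ℕ) * ((w : PowerSeries F) *
                ((w⁻¹ : (PowerSeries F)ˣ) : PowerSeries F)) * b') := by ring
          rw [this, Units.mul_inv]
          ring
        rw [this, map_zero]
    refine ⟨List.ofFn (fun i : Fin n => coeff (i : ℕ) s), List.length_ofFn, ?_⟩
    set v := List.ofFn (fun i : Fin n => coeff (i : ℕ) s) with hv
    have hvl : v.length = n := List.length_ofFn
    have hvc : ∀ i < n, coeff i (ser v) = coeff i s := by
      intro i hi
      rw [coeff_ser, List.getD_eq_getElem _ _ (by rw [hvl]; exact hi)]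
      simp [hv]
    apply list_ext (act_length _ _ _)
    intro i hi
    rw [act_length] at hi
    rw [getD_act _ _ _ _ hi, add_mul, one_mul, add_assoc, map_add, map_add, coeff_ser,
      coeff_mul_congr (pol c) (ser v) s i (fun k hk => hvc k (by omega)), ← map_add,
      hs1 i (by omega), add_zero]

/-! ### counting -/

theorem SP_cons {n : ℕ} (c₀ b₀ : F) (c b : Fin n → F) :
    SP (Fin.cons c₀ c : Fin (n + 1) → F) (Fin.cons b₀ b) ↔ (c₀ = 0 → b₀ = 0 ∧ SP c b) := by
  constructor
  · intro h h0
    subst h0
    refine ⟨?_, ?_⟩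
    · have := h 0 (fun j hj => by
        have : j = 0 := Fin.le_zero_iff.1 hj
        rw [this]
        rfl)
      exact this
    · intro i hi
      have := h i.succ (fun j hj => by
        refine Fin.cases ?_ (fun k hk => ?_) j hj
        · intro _
          rfl
        · exact hi k (Fin.succ_le_succ_iff.1 hk))
      exact this
  · intro h i hi
    have h0 : c₀ = 0 := hi 0 (Fin.zero_le _)
    obtain ⟨h1, h2⟩ := h h0
    revert hi
    refine Fin.cases ?_ (fun k => ?_) i
    · intro _
      exact h1
    · intro hi
      exact h2 k (fun j hj => hi j.succ (Fin.succ_le_succ_iff.2 hj))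

variable [Fintype F] [DecidableEq F]

open Classical in
theorem count_gen (n : ℕ) (S : Finset F) (hS : (0 : F) ∈ S) :
    (Finset.univ.filter (fun x : (Fin (n + 1) → F) × (Fin (n + 1) → F) =>
      x.1 0 ∈ S ∧ SP x.1 x.2)).card =
      (S.card - 1) * Fintype.card F ^ (2 * n + 1) +
        (Finset.univ.filter (fun x : (Fin n → F) × (Fin n → F) => SP x.1 x.2)).card := by
  -- the equivalence
  let E : (F × F) × ((Fin n → F) × (Fin n → F)) ≃ (Fin (n + 1) → F) × (Fin (n + 1) → F) :=
    { toFun := fun y => (Fin.cons y.1.1 y.2.1, Fin.cons y.1.2 y.2.2)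
      invFun := fun x => ((x.1 0, x.2 0), (Fin.tail x.1, Fin.tail x.2))
      left_inv := fun y => by simp
      right_inv := fun x => by simp [Fin.cons_self_tail] }
  have h1 : (Finset.univ.filter (fun x : (Fin (n + 1) → F) × (Fin (n + 1) → F) =>
      x.1 0 ∈ S ∧ SP x.1 x.2)).card =
      (Finset.univ.filter (fun y : (F × F) × ((Fin n → F) × (Fin n → F)) =>
        y.1.1 ∈ S ∧ (y.1.1 = 0 → y.1.2 = 0 ∧ SP y.2.1 y.2.2))).card := by
    refine (Finset.card_equiv E ?_).symm
    intro y
    rw [Finset.mem_filter, Finset.mem_filter]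
    show _ ↔ _ ∧ (Fin.cons y.1.1 y.2.1 : Fin (n + 1) → F) 0 ∈ S ∧
      SP (Fin.cons y.1.1 y.2.1 : Fin (n + 1) → F) (Fin.cons y.1.2 y.2.2)
    rw [SP_cons, Fin.cons_zero]
    simp
  rw [h1]
  -- split
  have h2 : (Finset.univ.filter (fun y : (F × F) × ((Fin n → F) × (Fin n → F)) =>
        y.1.1 ∈ S ∧ (y.1.1 = 0 → y.1.2 = 0 ∧ SP y.2.1 y.2.2))) =
      (((S.erase 0) ×ˢ (Finset.univ : Finset F)) ×ˢ
        (Finset.univ : Finset ((Fin n → F) × (Fin n → F)))) ∪
      ((({0} : Finset F) ×ˢ ({0} : Finset F)) ×ˢ
        (Finset.univ.filter (fun x : (Fin n → F) × (Fin n → F) => SP x.1 x.2))) := by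
    ext y
    simp only [Finset.mem_filter, Finset.mem_univ, true_and, Finset.mem_union, Finset.mem_product,
      Finset.mem_erase, and_true, Finset.mem_singleton]
    constructor
    · rintro ⟨h3, h4⟩
      by_cases h5 : y.1.1 = 0
      · right
        exact ⟨⟨h5, (h4 h5).1⟩, (h4 h5).2⟩
      · left
        exact ⟨h5, h3⟩
    · rintro (⟨h3, h4⟩ | ⟨⟨h3, h4⟩, h5⟩)
      · exact ⟨h4, fun h => absurd h h3⟩
      · rw [h3]
        exact ⟨hS, fun _ => ⟨h4, h5⟩⟩
  rw [h2, Finset.card_union_of_disjoint]
  · rw [Finset.card_product, Finset.card_product, Finset.card_product, Finset.card_product,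
      Finset.card_singleton, one_mul, one_mul, Finset.card_erase_of_mem hS, Finset.card_univ,
      Finset.card_univ, Fintype.card_prod, Fintype.card_fun, Fintype.card_fin]
    congr 1
    ring
  · rw [Finset.disjoint_left]
    intro y hy hy'
    rw [Finset.mem_product, Finset.mem_product, Finset.mem_erase] at hy
    rw [Finset.mem_product, Finset.mem_product, Finset.mem_singleton] at hy'
    exact hy.1.1.1 hy'.1.1

open Classical in
theorem count_all (n : ℕ) (S : Finset F) :
    (Finset.univ.filter (fun x : (Fin (n + 1) → F) × (Fin (n + 1) → F) => x.1 0 ∈ S)).card =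
      S.card * Fintype.card F ^ (2 * n + 1) := by
  let E : (F × (Fin n → F)) × (Fin (n + 1) → F) ≃ (Fin (n + 1) → F) × (Fin (n + 1) → F) :=
    { toFun := fun y => (Fin.cons y.1.1 y.1.2, y.2)
      invFun := fun x => ((x.1 0, Fin.tail x.1), x.2)
      left_inv := fun y => by simp
      right_inv := fun x => by simp [Fin.cons_self_tail] }
  have h1 : (Finset.univ.filter (fun x : (Fin (n + 1) → F) × (Fin (n + 1) → F) =>
      x.1 0 ∈ S)).card =
      ((S ×ˢ (Finset.univ : Finset (Fin n → F))) ×ˢ (Finset.univ : Finset (Fin (n + 1) → F))).card := by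
    refine (Finset.card_equiv E ?_).symm
    intro y
    rw [Finset.mem_filter, Finset.mem_product, Finset.mem_product]
    show _ ↔ _ ∧ (Fin.cons y.1.1 y.1.2 : Fin (n + 1) → F) 0 ∈ S
    rw [Fin.cons_zero]
    simp
  rw [h1, Finset.card_product, Finset.card_product, Finset.card_univ, Finset.card_univ,
    Fintype.card_fun, Fintype.card_fun, Fintype.card_fin, Fintype.card_fin]
  ring

open Classical in
/-- number of solvable pairs -/
noncomputable def cnt (F : Type) [Field F] [Fintype F] [DecidableEq F] (n : ℕ) : ℕ :=
  (Finset.univ.filter (fun x : (Fin n → F) × (Fin n → F) => SP x.1 x.2)).card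

theorem cnt_eq (n : ℕ) : (Fintype.card F + 1) * cnt F n = Fintype.card F ^ (2 * n + 1) + 1 := by
  classical
  have hq : 0 < Fintype.card F := Fintype.card_pos
  obtain ⟨r, hr⟩ : ∃ r, Fintype.card F = r + 1 := ⟨Fintype.card F - 1, by omega⟩
  induction n with
  | zero =>
    have h1 : cnt F 0 = 1 := by
      rw [cnt, Finset.card_eq_one]
      refine ⟨(Fin.elim0, Fin.elim0), ?_⟩
      ext x
      simp only [Finset.mem_filter, Finset.mem_univ, true_and, Finset.mem_singleton]
      constructor
      · intro _
        exact Subsingleton.elim _ _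
      · intro _ i
        exact i.elim0
    rw [h1]
    simp
  | succ n ih =>
    have h := count_gen n (Finset.univ : Finset F) (Finset.mem_univ 0)
    have h1 : cnt F (n + 1) = (Fintype.card F - 1) * Fintype.card F ^ (2 * n + 1) + cnt F n := by
      rw [Finset.card_univ] at h
      rw [cnt, cnt, ← h]
      congr 1
      ext x
      simp
    rw [h1, hr, Nat.add_sub_cancel]
    rw [hr] at ih
    have e : (r + 1) ^ (2 * (n + 1) + 1) = (r + 1) ^ 2 * (r + 1) ^ (2 * n + 1) := by ring
    rw [e]
    nlinarith

end

end Pool.Agent.W61h.LT
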