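import Mathlib

/-! # Conjugates of the bottom of a chain of subgroups of constant index

If `K 0 ≥ K 1 ≥ ... ≥ K n` is a chain of subgroups of a finite group with `|K i : K (i+1)| = d`,
the union of the conjugates of `K n` in `K 0` has at most `(1 - ∑_{j<n} d^{-(2j+1)}) |K 0|` elements.
-/

namespace Pool.Agent.W61h.LT

open Finset

section
variable {Q : Type*} [Group Q] [Fintype Q]

open Classical in
/-- the elements of `H` which are conjugate in `H` to an element of `K` -/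
noncomputable def conjSet (H K : Subgroup Q) : Finset Q :=
  Finset.univ.filter (fun h : Q => h ∈ H ∧ ∃ k ∈ H, k⁻¹ * h * k ∈ K)

theorem mem_conjSet {H K : Subgroup Q} {h : Q} :
    h ∈ conjSet H K ↔ h ∈ H ∧ ∃ k ∈ H, k⁻¹ * h * k ∈ K := by
  classical
  simp [conjSet]

open Classical in
/-- the underlying finset of a subgroup -/
noncomputable def fs (H : Subgroup Q) : Finset Q := Finset.univ.filter (fun h : Q => h ∈ H)

theorem mem_fs {H : Subgroup Q} {h : Q} : h ∈ fs H ↔ h ∈ H := by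
  classical
  simp [fs]

open Classical in
/-- triples: many pairs of conjugates have a large intersection -/
theorem triple_bound (K₀ K₁ K : Subgroup Q) (h10 : K₁ ≤ K₀) (hK : K ≤ K₁) (t₀ : Q) (ht₀ : t₀ ∈ K₀)
    (ht₁ : t₀ ∉ K₁) :
    (fs K₀).card * ((fs K).card * (fs K).card) ≤
      ∑ h ∈ fs K₀, (((fs K₀) ×ˢ (fs K₀)).filter (fun p : Q × Q =>
        p.1⁻¹ * h * p.1 ∈ K ∧ p.2⁻¹ * h * p.2 ∈ K ∧ p.1⁻¹ * p.2 ∉ K₁)).card := by
  rw [← Finset.card_sigma, ← Finset.card_product, ← Finset.card_product]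
  let D : Finset (Q × Q × Q) := (fs K₀) ×ˢ ((fs K) ×ˢ (fs K))
  let im : Q × Q × Q → Q × Q := fun x => (x.1 * x.2.1, x.1 * t₀ * x.2.2)
  have hbase : ∀ p : Q × Q, ∃ y : Q × Q × Q, (∃ x ∈ D, im x = p) → y ∈ D ∧ im y = p := by
    intro p
    by_cases hp : ∃ x ∈ D, im x = p
    · obtain ⟨x, hx, hxp⟩ := hp
      exact ⟨x, fun _ => ⟨hx, hxp⟩⟩
    · exact ⟨1, fun h => absurd h hp⟩
  choose base hb using hbase
  refine Finset.card_le_card_of_injOn (fun x => ⟨x.1 * (base (im x)).1⁻¹, im x⟩) ?_ ?_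
  · intro x hx
    have hxD : x ∈ D := hx
    have h1 := hb (im x) ⟨x, hxD, rfl⟩
    obtain ⟨g, a, b⟩ := x
    obtain ⟨⟨g₀, a₀, b₀⟩, hbe⟩ : ∃ y, base (im (g, a, b)) = y := ⟨_, rfl⟩
    rw [hbe] at h1
    simp only [D, Finset.mem_product, mem_fs] at hxD h1
    obtain ⟨hg, ha, hb'⟩ := hxD
    obtain ⟨⟨hg₀, ha₀, hb₀⟩, him⟩ := h1
    have e1 : g₀ * a₀ = g * a := congrArg Prod.fst him
    have e2 : g₀ * t₀ * b₀ = g * t₀ * b := congrArg Prod.snd him
    simp only [Finset.mem_coe, Finset.mem_sigma, Finset.mem_filter, Finset.mem_product, mem_fs, hbe]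
    have i1 : g * g₀⁻¹ ∈ K₀ := K₀.mul_mem hg (K₀.inv_mem hg₀)
    refine ⟨i1, ⟨K₀.mul_mem hg (h10 (hK ha)), K₀.mul_mem (K₀.mul_mem hg ht₀) (h10 (hK hb'))⟩, ?_, ?_, ?_⟩
    · have : (g * a)⁻¹ * (g * g₀⁻¹) * (g * a) = a⁻¹ * a₀ := by
        calc (g * a)⁻¹ * (g * g₀⁻¹) * (g * a) = a⁻¹ * (g₀⁻¹ * (g * a)) := by group
          _ = a⁻¹ * a₀ := by rw [← e1]; group
      show (g * a)⁻¹ * (g * g₀⁻¹) * (g * a) ∈ K
      rw [this]
      exact K.mul_mem (K.inv_mem ha) ha₀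
    · have : (g * t₀ * b)⁻¹ * (g * g₀⁻¹) * (g * t₀ * b) = b⁻¹ * b₀ := by
        calc (g * t₀ * b)⁻¹ * (g * g₀⁻¹) * (g * t₀ * b) = b⁻¹ * t₀⁻¹ * (g₀⁻¹ * (g * t₀ * b)) := by group
          _ = b⁻¹ * b₀ := by rw [← e2]; group
      show (g * t₀ * b)⁻¹ * (g * g₀⁻¹) * (g * t₀ * b) ∈ K
      rw [this]
      exact K.mul_mem (K.inv_mem hb') hb₀
    · have : (g * a)⁻¹ * (g * t₀ * b) = a⁻¹ * t₀ * b := by group
      show (g * a)⁻¹ * (g * t₀ * b) ∉ K₁
      rw [this]
      intro hmem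
      apply ht₁
      have := K₁.mul_mem (K₁.mul_mem (hK ha) hmem) (K₁.inv_mem (hK hb'))
      have e : a * (a⁻¹ * t₀ * b) * b⁻¹ = t₀ := by group
      rwa [e] at this
  · intro x hx y hy hxy
    have h1 : im x = im y := congrArg Sigma.snd hxy
    have h2 : x.1 * (base (im x)).1⁻¹ = y.1 * (base (im y)).1⁻¹ := congrArg Sigma.fst hxy
    rw [h1] at h2
    have h3 : x.1 = y.1 := mul_right_cancel h2
    have h4 : x.1 * x.2.1 = y.1 * y.2.1 := congrArg Prod.fst h1
    have h5 : x.1 * t₀ * x.2.2 = y.1 * t₀ * y.2.2 := congrArg Prod.snd h1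
    rw [h3] at h4 h5
    have h6 := mul_left_cancel h4
    have h7 := mul_left_cancel h5
    exact Prod.ext h3 (Prod.ext h6 h7)

theorem card_fs (H : Subgroup Q) : (fs H).card = Nat.card H := by
  classical
  rw [Nat.card_eq_fintype_card, Fintype.card_subtype]
  rfl

/-- one step of the recursion -/
theorem step (K₀ K₁ K : Subgroup Q) (h10 : K₁ ≤ K₀) (hK : K ≤ K₁) (d m : ℕ) (hd : 2 ≤ d)
    (h0 : (fs K₀).card = d * (fs K₁).card) (h1 : (fs K₁).card = m * (fs K).card) :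
    ((conjSet K₀ K).card : ℝ) ≤
      d * ((conjSet K₁ K).card : ℝ) - (fs K₀).card / (d * (m : ℝ) ^ 2) := by
  classical
  have hKpos : 0 < (fs K).card := Finset.card_pos.2 ⟨1, mem_fs.2 K.one_mem⟩
  have hcpos : 0 < (fs K₁).card := Finset.card_pos.2 ⟨1, mem_fs.2 K₁.one_mem⟩
  have hm : 0 < m := by
    rcases Nat.eq_zero_or_pos m with h | h
    · rw [h, zero_mul] at h1
      omega
    · exact h
  -- a coset representative
  obtain ⟨t₀, ht₀, ht₁⟩ : ∃ t₀ ∈ K₀, t₀ ∉ K₁ := by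
    by_contra hcon
    push Not at hcon
    have : (fs K₀).card ≤ (fs K₁).card :=
      Finset.card_le_card (fun x hx => mem_fs.2 (hcon x (mem_fs.1 hx)))
    rw [h0] at this
    nlinarith
  -- `C`
  set C := conjSet K₁ K with hC
  have hCconj : ∀ h, ∀ l ∈ K₁, h ∈ C → l⁻¹ * h * l ∈ C := by
    intro h l hl hh
    rw [hC, mem_conjSet] at hh ⊢
    obtain ⟨hh1, k, hk, hk2⟩ := hh
    refine ⟨K₁.mul_mem (K₁.mul_mem (K₁.inv_mem hl) hh1) hl, l⁻¹ * k, K₁.mul_mem (K₁.inv_mem hl) hk, ?_⟩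
    have : (l⁻¹ * k)⁻¹ * (l⁻¹ * h * l) * (l⁻¹ * k) = k⁻¹ * h * k := by group
    rwa [this]
  have hKC : ∀ h ∈ K, h ∈ C := by
    intro h hh
    rw [hC, mem_conjSet]
    exact ⟨hK hh, 1, K₁.one_mem, by simpa using hh⟩
  let M : Q → ℕ := fun h => ((fs K₀).filter (fun t => t⁻¹ * h * t ∈ C)).card
  have hM : ∀ h, M h = ((fs K₀).filter (fun t => t⁻¹ * h * t ∈ C)).card := fun _ => rfl
  -- (i)
  have hM0 : ∀ h ∈ fs K₀, h ∉ conjSet K₀ K → M h = 0 := by
    intro h hh hn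
    rw [hM, Finset.card_eq_zero, Finset.filter_eq_empty_iff]
    intro t ht htC
    apply hn
    rw [mem_conjSet]
    rw [hC, mem_conjSet] at htC
    obtain ⟨h2, l, hl, hl2⟩ := htC
    refine ⟨mem_fs.1 hh, t * l, K₀.mul_mem (mem_fs.1 ht) (h10 hl), ?_⟩
    have : (t * l)⁻¹ * h * (t * l) = l⁻¹ * (t⁻¹ * h * t) * l := by group
    rwa [this]
  have hMge : ∀ h ∈ conjSet K₀ K, (fs K₁).card ≤ M h := by
    intro h hh
    rw [mem_conjSet] at hh
    obtain ⟨h2, k, hk, hk2⟩ := hh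
    rw [hM]
    refine Finset.card_le_card_of_injOn (fun l => k * l) ?_ ?_
    · intro l hl
      have hl' : l ∈ K₁ := mem_fs.1 hl
      rw [Finset.mem_coe, Finset.mem_filter]
      refine ⟨mem_fs.2 (K₀.mul_mem hk (h10 hl')), ?_⟩
      have : (k * l)⁻¹ * h * (k * l) = l⁻¹ * (k⁻¹ * h * k) * l := by group
      rw [this]
      exact hCconj _ l hl' (hKC _ hk2)
    · intro a _ b _ hab
      exact mul_left_cancel hab
  have hMle : ∀ h, M h ≤ (fs K₀).card := fun h => Finset.card_filter_le _ _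
  -- (ii)
  have hsum1 : ∑ h ∈ fs K₀, M h = (fs K₀).card * C.card := by
    calc ∑ h ∈ fs K₀, M h = ∑ h ∈ fs K₀, ∑ t ∈ fs K₀, (if t⁻¹ * h * t ∈ C then 1 else 0) := by
          refine Finset.sum_congr rfl (fun h _ => ?_)
          rw [hM, Finset.card_filter]
      _ = ∑ t ∈ fs K₀, ∑ h ∈ fs K₀, (if t⁻¹ * h * t ∈ C then 1 else 0) := Finset.sum_comm
      _ = ∑ t ∈ fs K₀, C.card := by
          refine Finset.sum_congr rfl (fun t ht => ?_)
          rw [← Finset.card_filter]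
          have ht' : t ∈ K₀ := mem_fs.1 ht
          refine Finset.card_bij' (fun h _ => t⁻¹ * h * t) (fun h _ => t * h * t⁻¹) ?_ ?_ ?_ ?_
          · intro h hh
            exact (Finset.mem_filter.1 hh).2
          · intro h hh
            rw [Finset.mem_filter]
            refine ⟨mem_fs.2 (K₀.mul_mem (K₀.mul_mem ht' ?_) (K₀.inv_mem ht')), ?_⟩
            · rw [hC, mem_conjSet] at hh
              exact h10 hh.1
            · have : t⁻¹ * (t * h * t⁻¹) * t = h := by group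
              rwa [this]
          · intro h _
            show t * (t⁻¹ * h * t) * t⁻¹ = h
            group
          · intro h _
            show t⁻¹ * (t * h * t⁻¹) * t = h
            group
      _ = _ := by rw [Finset.sum_const, smul_eq_mul]
  -- (iii)
  have hY : ∀ h, (((fs K₀) ×ˢ (fs K₀)).filter (fun p : Q × Q =>
        p.1⁻¹ * h * p.1 ∈ C ∧ p.2⁻¹ * h * p.2 ∈ C ∧ p.1⁻¹ * p.2 ∉ K₁)).card + (fs K₁).card * M h =
        M h * M h := by
    intro h
    set S := (fs K₀).filter (fun t => t⁻¹ * h * t ∈ C) with hS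
    have e1 : M h * M h = (S ×ˢ S).card := by rw [Finset.card_product]
    have e2 := Finset.card_filter_add_card_filter_not (s := S ×ˢ S) (fun p : Q × Q => p.1⁻¹ * p.2 ∈ K₁)
    have e3 : ((S ×ˢ S).filter (fun p : Q × Q => p.1⁻¹ * p.2 ∈ K₁)).card = (fs K₁).card * M h := by
      rw [mul_comm, hM, ← hS, ← Finset.card_product]
      refine Finset.card_bij' (fun p _ => (p.1, p.1⁻¹ * p.2)) (fun p _ => (p.1, p.1 * p.2)) ?_ ?_ ?_ ?_
      · intro p hp
        rw [Finset.mem_filter, Finset.mem_product] at hp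
        rw [Finset.mem_product]
        exact ⟨hp.1.1, mem_fs.2 hp.2⟩
      · intro p hp
        rw [Finset.mem_product] at hp
        rw [Finset.mem_filter, Finset.mem_product]
        have hl : p.2 ∈ K₁ := mem_fs.1 hp.2
        have hs := hp.1
        rw [hS, Finset.mem_filter] at hs
        refine ⟨⟨hp.1, ?_⟩, ?_⟩
        · rw [hS, Finset.mem_filter]
          refine ⟨mem_fs.2 (K₀.mul_mem (mem_fs.1 hs.1) (h10 hl)), ?_⟩
          have : (p.1 * p.2)⁻¹ * h * (p.1 * p.2) = p.2⁻¹ * (p.1⁻¹ * h * p.1) * p.2 := by group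
          show (p.1 * p.2)⁻¹ * h * (p.1 * p.2) ∈ C
          rw [this]
          exact hCconj _ _ hl hs.2
        · show p.1⁻¹ * (p.1 * p.2) ∈ K₁
          have : p.1⁻¹ * (p.1 * p.2) = p.2 := by group
          rwa [this]
      · intro p _
        refine Prod.ext rfl ?_
        show p.1 * (p.1⁻¹ * p.2) = p.2
        group
      · intro p _
        refine Prod.ext rfl ?_
        show p.1⁻¹ * (p.1 * p.2) = p.2
        group
    have e4 : ((S ×ˢ S).filter (fun p : Q × Q => ¬ p.1⁻¹ * p.2 ∈ K₁)) =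
        ((fs K₀) ×ˢ (fs K₀)).filter (fun p : Q × Q =>
        p.1⁻¹ * h * p.1 ∈ C ∧ p.2⁻¹ * h * p.2 ∈ C ∧ p.1⁻¹ * p.2 ∉ K₁) := by
      ext p
      simp only [hS, Finset.mem_filter, Finset.mem_product]
      tauto
    rw [e1, ← e2, e3, e4]
    ring
  have hsum2 : (fs K₀).card * ((fs K).card * (fs K).card) + (fs K₁).card * ∑ h ∈ fs K₀, M h ≤
      ∑ h ∈ fs K₀, M h * M h := by
    have t1 := triple_bound K₀ K₁ K h10 hK t₀ ht₀ ht₁
    have t2 : ∑ h ∈ fs K₀, (((fs K₀) ×ˢ (fs K₀)).filter (fun p : Q × Q =>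
        p.1⁻¹ * h * p.1 ∈ K ∧ p.2⁻¹ * h * p.2 ∈ K ∧ p.1⁻¹ * p.2 ∉ K₁)).card ≤
        ∑ h ∈ fs K₀, (((fs K₀) ×ˢ (fs K₀)).filter (fun p : Q × Q =>
        p.1⁻¹ * h * p.1 ∈ C ∧ p.2⁻¹ * h * p.2 ∈ C ∧ p.1⁻¹ * p.2 ∉ K₁)).card := by
      refine Finset.sum_le_sum (fun h _ => Finset.card_le_card ?_)
      intro p hp
      rw [Finset.mem_filter] at hp ⊢
      exact ⟨hp.1, hKC _ hp.2.1, hKC _ hp.2.2.1, hp.2.2.2⟩
    rw [Finset.mul_sum]
    calc _ ≤ ∑ h ∈ fs K₀, (((fs K₀) ×ˢ (fs K₀)).filter (fun p : Q × Q =>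
        p.1⁻¹ * h * p.1 ∈ C ∧ p.2⁻¹ * h * p.2 ∈ C ∧ p.1⁻¹ * p.2 ∉ K₁)).card +
          ∑ h ∈ fs K₀, (fs K₁).card * M h := Nat.add_le_add_right (t1.trans t2) _
      _ = _ := by
          rw [← Finset.sum_add_distrib]
          exact Finset.sum_congr rfl (fun h _ => hY h)
  -- conclusion
  obtain ⟨c, hc⟩ : ∃ c : ℝ, ((fs K₁).card : ℝ) = c := ⟨_, rfl⟩
  obtain ⟨k, hk⟩ : ∃ k : ℝ, ((fs K).card : ℝ) = k := ⟨_, rfl⟩
  obtain ⟨N, hN⟩ : ∃ N : ℝ, ((fs K₀).card : ℝ) = N := ⟨_, rfl⟩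
  have hc0 : 0 < c := by rw [← hc]; exact_mod_cast hcpos
  have hk0 : 0 < k := by rw [← hk]; exact_mod_cast hKpos
  have hd0 : (0 : ℝ) < d := by
    have : 0 < d := by omega
    exact_mod_cast this
  have hm0 : (0 : ℝ) < m := by exact_mod_cast hm
  have hNc : N = d * c := by rw [← hN, ← hc]; exact_mod_cast h0
  have hck : c = m * k := by rw [← hc, ← hk]; exact_mod_cast h1
  have hpt : ∀ h ∈ fs K₀, (if h ∈ conjSet K₀ K then (1 : ℝ) else 0) ≤
      (1 / c) * (M h : ℝ) - (1 / (d * c ^ 2)) * ((M h : ℝ) * M h - c * M h) := by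
    intro h hh
    by_cases hu : h ∈ conjSet K₀ K
    · rw [if_pos hu]
      have a1 : c ≤ (M h : ℝ) := by rw [← hc]; exact_mod_cast hMge h hu
      have a2 : (M h : ℝ) ≤ d * c := by rw [← hNc, ← hN]; exact_mod_cast hMle h
      obtain ⟨x, hx⟩ : ∃ x : ℝ, (M h : ℝ) = c * x := ⟨(M h : ℝ) / c, by field_simp⟩
      rw [hx] at a1 a2 ⊢
      have b1 : 1 ≤ x := by
        by_contra hcon
        rw [not_le] at hcon
        nlinarith
      have b2 : x ≤ d := by
        by_contra hcon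
        rw [not_le] at hcon
        nlinarith
      have e : (1 / c) * (c * x) - (1 / (d * c ^ 2)) * ((c * x) * (c * x) - c * (c * x)) =
          x - x * (x - 1) / d := by
        field_simp
      rw [e]
      have : x - x * (x - 1) / d - 1 = (x - 1) * (d - x) / d := by
        field_simp
        ring
      have : 0 ≤ (x - 1) * (d - x) / d := div_nonneg (mul_nonneg (by linarith) (by linarith)) hd0.le
      linarith
    · rw [if_neg hu, hM0 h hh hu]
      simp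
  have hcard : ((conjSet K₀ K).card : ℝ) = ∑ h ∈ fs K₀, (if h ∈ conjSet K₀ K then (1 : ℝ) else 0) := by
    rw [Finset.sum_ite_mem, Finset.sum_const, nsmul_eq_mul, mul_one]
    congr 2
    ext h
    rw [Finset.mem_inter, mem_fs, mem_conjSet]
    tauto
  have hs1 : ∑ h ∈ fs K₀, (M h : ℝ) = N * (C.card : ℝ) := by
    rw [← hN]
    exact_mod_cast hsum1
  have hs2 : N * (k * k) + c * (N * (C.card : ℝ)) ≤ ∑ h ∈ fs K₀, (M h : ℝ) * M h := by
    rw [← hs1, ← hN, ← hk, ← hc]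
    exact_mod_cast hsum2
  rw [hcard, hN]
  refine (Finset.sum_le_sum hpt).trans ?_
  rw [Finset.sum_sub_distrib, ← Finset.mul_sum, ← Finset.mul_sum, Finset.sum_sub_distrib,
    ← Finset.mul_sum, hs1]
  have e1 : (1 / c) * (N * (C.card : ℝ)) = d * (C.card : ℝ) := by
    rw [hNc]
    field_simp
  have e2 : N / (d * (m : ℝ) ^ 2) = (1 / (d * c ^ 2)) * (N * (k * k)) := by
    rw [hck]
    field_simp
  rw [e1, e2]
  have : (1 / (d * c ^ 2)) * (N * (k * k)) ≤
      (1 / (d * c ^ 2)) * (∑ h ∈ fs K₀, (M h : ℝ) * M h - c * (N * (C.card : ℝ))) :=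
    mul_le_mul_of_nonneg_left (by linarith) (by positivity)
  linarith

theorem step_top (K₀ K₁ : Subgroup Q) (h10 : K₁ ≤ K₀) (d : ℕ) (hd : 2 ≤ d)
    (h0 : (fs K₀).card = d * (fs K₁).card) :
    ((conjSet K₀ K₁).card : ℝ) / (fs K₀).card ≤ 1 - 1 / d := by
  have h := step K₀ K₁ K₁ h10 le_rfl d 1 hd h0 (one_mul _).symm
  have e : conjSet K₁ K₁ = fs K₁ := by
    ext x
    rw [mem_conjSet, mem_fs]
    exact ⟨fun h => h.1, fun h => ⟨h, 1, K₁.one_mem, by simpa using h⟩⟩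
  rw [e] at h
  have hcpos : 0 < (fs K₀).card := Finset.card_pos.2 ⟨1, mem_fs.2 K₀.one_mem⟩
  have hc0 : (0 : ℝ) < (fs K₀).card := by exact_mod_cast hcpos
  have hd0 : (0 : ℝ) < d := by
    have : 0 < d := by omega
    exact_mod_cast this
  have h2 : ((fs K₀).card : ℝ) = d * (fs K₁).card := by exact_mod_cast h0
  rw [div_le_iff₀ hc0]
  calc ((conjSet K₀ K₁).card : ℝ) ≤ d * ((fs K₁).card : ℝ) - (fs K₀).card / (d * ((1 : ℕ) : ℝ) ^ 2) := h
    _ = (1 - 1 / d) * (fs K₀).card := by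
      rw [← h2]
      push_cast
      field_simp

/-- **The chain bound.** -/
theorem chain_gen (d : ℕ) (hd : 2 ≤ d) : ∀ (n : ℕ) (K : ℕ → Subgroup Q),
    (∀ i ≤ n, K (i + 1) ≤ K i) → (∀ i ≤ n, (fs (K i)).card = d * (fs (K (i + 1))).card) →
    ((conjSet (K 0) (K (n + 1))).card : ℝ) / (fs (K 0)).card ≤
      ((conjSet (K n) (K (n + 1))).card : ℝ) / (fs (K n)).card -
        ∑ j ∈ Finset.range n, 1 / (d : ℝ) ^ (2 * (j + 1) + 1) := by
  intro n
  induction n with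
  | zero =>
    intro K _ _
    simp
  | succ n ih =>
    intro K hK hc
    have h1 := ih (fun i => K (i + 1)) (fun i hi => hK (i + 1) (by omega))
      (fun i hi => hc (i + 1) (by omega))
    have hle : ∀ i ≤ n + 1, K (i + 1) ≤ K 1 := by
      intro i
      induction i with
      | zero => intro _; exact le_rfl
      | succ i ihi =>
        intro hi
        exact (hK (i + 1) hi).trans (ihi (by omega))
    have hcard : ∀ i ≤ n + 1, (fs (K 1)).card = d ^ i * (fs (K (i + 1))).card := by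
      intro i
      induction i with
      | zero => intro _; simp
      | succ i ihi =>
        intro hi
        rw [ihi (by omega), hc (i + 1) hi, pow_succ]
        ring
    have h2 := step (K 0) (K 1) (K (n + 2)) (hK 0 (by omega)) (hle (n + 1) le_rfl) d (d ^ (n + 1)) hd
      (hc 0 (by omega)) (hcard (n + 1) le_rfl)
    have hcpos : 0 < (fs (K 0)).card := Finset.card_pos.2 ⟨1, mem_fs.2 (K 0).one_mem⟩
    have hc0 : (0 : ℝ) < (fs (K 0)).card := by exact_mod_cast hcpos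
    have hc1pos : 0 < (fs (K 1)).card := Finset.card_pos.2 ⟨1, mem_fs.2 (K 1).one_mem⟩
    have hc1 : (0 : ℝ) < (fs (K 1)).card := by exact_mod_cast hc1pos
    have hd0 : (0 : ℝ) < d := by
      have : 0 < d := by omega
      exact_mod_cast this
    have h3 : ((fs (K 0)).card : ℝ) = d * (fs (K 1)).card := by exact_mod_cast hc 0 (by omega)
    have h4 : ((conjSet (K 0) (K (n + 2))).card : ℝ) / (fs (K 0)).card ≤
        ((conjSet (K 1) (K (n + 2))).card : ℝ) / (fs (K 1)).card -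
          1 / (d : ℝ) ^ (2 * (n + 1) + 1) := by
      rw [div_le_iff₀ hc0]
      refine h2.trans (le_of_eq ?_)
      rw [h3]
      push_cast
      field_simp
      ring
    rw [Finset.sum_range_succ]
    have h5 : ((conjSet (K 1) (K (n + 2))).card : ℝ) / (fs (K 1)).card ≤
      ((conjSet (K (n + 1)) (K (n + 2))).card : ℝ) / (fs (K (n + 1))).card -
        ∑ j ∈ Finset.range n, 1 / (d : ℝ) ^ (2 * (j + 1) + 1) := h1
    linarith

end

end Pool.Agent.W61h.LT
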