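import Mathlib

/-! # Transitive groups of degree `d` with exactly `|G|/d` derangements

A transitive permutation group of degree `d` in which at most `1/d` of the elements are derangements
exists only if `d` is a prime power. -/

namespace Pool.Agent.W61h.LT

open Finset

section
variable {Ω : Type*} [Fintype Ω] [DecidableEq Ω]

/-- number of fixed points -/
def nfix (g : Equiv.Perm Ω) : ℕ := (Finset.univ.filter (fun x => g x = x)).card

theorem nfix_le (g : Equiv.Perm Ω) : nfix g ≤ Fintype.card Ω := Finset.card_filter_le _ _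

theorem nfix_pos (g : Equiv.Perm Ω) : 0 < nfix g ↔ ∃ x, g x = x := by
  rw [nfix, Finset.card_pos]
  constructor
  · rintro ⟨x, hx⟩
    exact ⟨x, (Finset.mem_filter.1 hx).2⟩
  · rintro ⟨x, hx⟩
    exact ⟨x, Finset.mem_filter.2 ⟨Finset.mem_univ _, hx⟩⟩

open Classical in
/-- Burnside for points and for pairs -/
theorem burnside (P : Subgroup (Equiv.Perm Ω)) (htr : ∀ x y : Ω, ∃ g ∈ P, g x = y)
    (hd : 2 ≤ Fintype.card Ω) :
    ∑ g : P, nfix (g : Equiv.Perm Ω) = Fintype.card P ∧
      2 * Fintype.card P ≤ ∑ g : P, (nfix (g : Equiv.Perm Ω)) ^ 2 := by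
  have hne : Nonempty Ω := Fintype.card_pos_iff.1 (by omega)
  have : MulAction.IsPretransitive P Ω := ⟨fun x y => by
    obtain ⟨g, hg, h⟩ := htr x y
    exact ⟨⟨g, hg⟩, h⟩⟩
  have hfix : ∀ g : P, Fintype.card (MulAction.fixedBy Ω g) = nfix (g : Equiv.Perm Ω) := by
    intro g
    rw [nfix, Fintype.card_subtype]
    congr 1
  constructor
  · have h := MulAction.sum_card_fixedBy_eq_card_orbits_mul_card_group P Ω
    have h1 : Fintype.card (Quotient (MulAction.orbitRel P Ω)) = 1 := by
      rw [Fintype.card_eq_one_iff_nonempty_unique]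
      have := (MulAction.pretransitive_iff_unique_quotient_of_nonempty P Ω).1 inferInstance
      exact this
    rw [h1, one_mul] at h
    rw [← h]
    exact Finset.sum_congr rfl (fun g _ => (hfix g).symm)
  · have h := MulAction.sum_card_fixedBy_eq_card_orbits_mul_card_group P (Ω × Ω)
    have h1 : 1 < Fintype.card (Quotient (MulAction.orbitRel P (Ω × Ω))) := by
      obtain ⟨x, y, hxy⟩ := Fintype.exists_pair_of_one_lt_card (show 1 < Fintype.card Ω by omega)
      rw [Fintype.one_lt_card_iff]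
      refine ⟨Quotient.mk _ (x, x), Quotient.mk _ (x, y), ?_⟩
      intro he
      have he' := Quotient.exact he
      obtain ⟨g, hg⟩ := he'
      have e1 : g • x = x := congrArg Prod.fst hg
      have e2 : g • y = x := congrArg Prod.snd hg
      exact hxy (smul_left_cancel g (e1.trans e2.symm))
    have h2 : ∀ g : P, Fintype.card (MulAction.fixedBy (Ω × Ω) g) = (nfix (g : Equiv.Perm Ω)) ^ 2 := by
      intro g
      rw [nfix, sq, ← Finset.card_product, Fintype.card_subtype]
      congr 1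
      ext ⟨a, b⟩
      simp only [MulAction.mem_fixedBy, Finset.mem_filter, Finset.mem_univ, true_and,
        Finset.mem_product, Prod.smul_mk, Prod.mk.injEq]
      rfl
    calc 2 * Fintype.card P ≤ Fintype.card (Quotient (MulAction.orbitRel P (Ω × Ω))) *
        Fintype.card P := Nat.mul_le_mul_right _ h1
      _ = _ := by
        rw [← h]
        exact Finset.sum_congr rfl (fun g _ => h2 g)

open Classical in
/-- **Cameron-Cohen**, and the case of equality -/
theorem cameron_cohen (P : Subgroup (Equiv.Perm Ω)) (htr : ∀ x y : Ω, ∃ g ∈ P, g x = y)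
    (hd : 2 ≤ Fintype.card Ω) :
    Fintype.card Ω * (Finset.univ.filter (fun g : P => ∃ x, (g : Equiv.Perm Ω) x = x)).card ≤
      (Fintype.card Ω - 1) * Fintype.card P ∧
    (Fintype.card Ω * (Finset.univ.filter (fun g : P => ∃ x, (g : Equiv.Perm Ω) x = x)).card =
      (Fintype.card Ω - 1) * Fintype.card P → IsPrimePow (Fintype.card Ω)) := by
  obtain ⟨hb1, hb2⟩ := burnside P htr hd
  obtain ⟨d, hdd⟩ : ∃ d, Fintype.card Ω = d + 1 := ⟨Fintype.card Ω - 1, by omega⟩
  set U := Finset.univ.filter (fun g : P => ∃ x, (g : Equiv.Perm Ω) x = x) with hU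
  have hpt : ∀ g : P, (d + 1) * (if g ∈ U then 1 else 0) + (nfix (g : Equiv.Perm Ω)) ^ 2 ≤
      (d + 2) * nfix (g : Equiv.Perm Ω) := by
    intro g
    have hle := nfix_le (g : Equiv.Perm Ω)
    rw [hdd] at hle
    by_cases hg : g ∈ U
    · rw [if_pos hg]
      have h0 : 0 < nfix (g : Equiv.Perm Ω) := by
        rw [nfix_pos]
        exact (Finset.mem_filter.1 hg).2
      obtain ⟨f, hf⟩ : ∃ f, nfix (g : Equiv.Perm Ω) = f + 1 := ⟨nfix (g : Equiv.Perm Ω) - 1, by omega⟩
      rw [hf] at hle ⊢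
      nlinarith
    · rw [if_neg hg]
      have h0 : nfix (g : Equiv.Perm Ω) = 0 := by
        by_contra hne
        apply hg
        rw [hU, Finset.mem_filter]
        exact ⟨Finset.mem_univ _, (nfix_pos _).1 (Nat.pos_of_ne_zero hne)⟩
      rw [h0]
      simp
  have hsum : ∑ g : P, ((d + 1) * (if g ∈ U then 1 else 0) + (nfix (g : Equiv.Perm Ω)) ^ 2) =
      (d + 1) * U.card + ∑ g : P, (nfix (g : Equiv.Perm Ω)) ^ 2 := by
    rw [Finset.sum_add_distrib, ← Finset.mul_sum]
    congr 2
    rw [Finset.sum_ite_mem, Finset.univ_inter, Finset.sum_const, smul_eq_mul, mul_one]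
  have hsum2 : ∑ g : P, (d + 2) * nfix (g : Equiv.Perm Ω) = (d + 2) * Fintype.card P := by
    rw [← Finset.mul_sum, hb1]
  have hle : (d + 1) * U.card + ∑ g : P, (nfix (g : Equiv.Perm Ω)) ^ 2 ≤ (d + 2) * Fintype.card P := by
    rw [← hsum, ← hsum2]
    exact Finset.sum_le_sum (fun g _ => hpt g)
  rw [hdd, Nat.add_sub_cancel]
  refine ⟨by nlinarith, ?_⟩
  intro heq
  -- equality everywhere
  have heq2 : ∑ g : P, (nfix (g : Equiv.Perm Ω)) ^ 2 = 2 * Fintype.card P := by nlinarith
  have heq3 : ∀ g : P, (d + 1) * (if g ∈ U then 1 else 0) + (nfix (g : Equiv.Perm Ω)) ^ 2 =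
      (d + 2) * nfix (g : Equiv.Perm Ω) := by
    have h : ∑ g : P, ((d + 1) * (if g ∈ U then 1 else 0) + (nfix (g : Equiv.Perm Ω)) ^ 2) =
        ∑ g : P, (d + 2) * nfix (g : Equiv.Perm Ω) := by
      rw [hsum, hsum2, heq, heq2]
      ring
    have := (Finset.sum_eq_sum_iff_of_le (fun g _ => hpt g)).1 h
    exact fun g => this g (Finset.mem_univ g)
  have hone : ∀ g : P, g ≠ 1 → nfix (g : Equiv.Perm Ω) ≤ 1 := by
    intro g hg
    by_contra hcon
    rw [not_le] at hcon
    have h0 : g ∈ U := by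
      rw [hU, Finset.mem_filter]
      exact ⟨Finset.mem_univ _, (nfix_pos _).1 (by omega)⟩
    have h1 := heq3 g
    rw [if_pos h0] at h1
    obtain ⟨f, hf⟩ : ∃ f, nfix (g : Equiv.Perm Ω) = f + 2 := ⟨nfix (g : Equiv.Perm Ω) - 2, by omega⟩
    have hle := nfix_le (g : Equiv.Perm Ω)
    rw [hdd] at hle
    rw [hf] at h1 hle
    have h2 : f + 1 = d := by
      have : (f + 1) * f = (f + 1) * (d - 1) := by
        obtain ⟨e, he⟩ : ∃ e, d = e + 1 := ⟨d - 1, by omega⟩
        subst he
        rw [Nat.add_sub_cancel]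
        nlinarith
      have := Nat.eq_of_mul_eq_mul_left (by omega) this
      omega
    apply hg
    apply Subtype.ext
    apply Equiv.ext
    intro x
    have h3 : (Finset.univ.filter (fun x => (g : Equiv.Perm Ω) x = x)) = Finset.univ := by
      apply Finset.eq_univ_of_card
      show nfix (g : Equiv.Perm Ω) = _
      rw [hf, hdd]
      omega
    have h4 : x ∈ (Finset.univ.filter (fun x => (g : Equiv.Perm Ω) x = x)) := by
      rw [h3]
      exact Finset.mem_univ _
    exact (Finset.mem_filter.1 h4).2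
  have hn1 : nfix ((1 : P) : Equiv.Perm Ω) = d + 1 := by
    rw [nfix, ← hdd, ← Finset.card_univ]
    congr 1
    ext x
    simp
  -- the order
  have hcard : Fintype.card P = (d + 1) * d := by
    have h1 : ∑ g : P, (nfix (g : Equiv.Perm Ω)) ^ 2 =
        ∑ g : P, nfix (g : Equiv.Perm Ω) + (d + 1) * d := by
      rw [← Finset.add_sum_erase _ _ (Finset.mem_univ (1 : P)),
        ← Finset.add_sum_erase (Finset.univ : Finset P) (fun g => nfix (g : Equiv.Perm Ω))
          (Finset.mem_univ (1 : P)), hn1]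
      have : ∑ g ∈ Finset.univ.erase (1 : P), (nfix (g : Equiv.Perm Ω)) ^ 2 =
          ∑ g ∈ Finset.univ.erase (1 : P), nfix (g : Equiv.Perm Ω) := by
        refine Finset.sum_congr rfl (fun g hg => ?_)
        have := hone g (Finset.ne_of_mem_erase hg)
        interval_cases h : nfix (g : Equiv.Perm Ω) <;> rfl
      rw [this]
      ring
    rw [hb1, heq2] at h1
    omega
  -- the derangements
  set D := Finset.univ.filter (fun g : P => ¬ ∃ x, (g : Equiv.Perm Ω) x = x) with hD
  have hDU := Finset.card_filter_add_card_filter_not (s := (Finset.univ : Finset P))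
    (fun g : P => ∃ x, (g : Equiv.Perm Ω) x = x)
  rw [← hU, ← hD, Finset.card_univ, hcard] at hDU
  have hUc : U.card = d * d := by
    rw [hcard] at heq
    have : (d + 1) * U.card = (d + 1) * (d * d) := by rw [heq]; ring
    exact Nat.eq_of_mul_eq_mul_left (by omega) this
  have hDc : D.card = d := by nlinarith
  have hne : Nonempty Ω := Fintype.card_pos_iff.1 (by omega)
  obtain ⟨x⟩ := hne
  -- the stabilizer
  have hst : (Finset.univ.filter (fun g : P => (g : Equiv.Perm Ω) x = x)).card = d := by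
    have : MulAction.IsPretransitive P Ω := ⟨fun x y => by
      obtain ⟨g, hg, h⟩ := htr x y
      exact ⟨⟨g, hg⟩, h⟩⟩
    have h := MulAction.card_orbit_mul_card_stabilizer_eq_card_group P x
    have h1 : Fintype.card (MulAction.orbit P x) = d + 1 := by
      rw [← hdd]
      exact (Fintype.card_congr (Equiv.setCongr (MulAction.orbit_eq_univ P x))).trans
        (Fintype.card_congr (Equiv.Set.univ Ω))
    rw [h1, hcard] at h
    have h2 := Nat.eq_of_mul_eq_mul_left (by omega) h
    rw [← h2, Fintype.card_subtype]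
    congr 1
  obtain ⟨δ, hδ⟩ : ∃ δ, δ ∈ D := Finset.card_pos.1 (by omega)
  have hδ' : ¬ ∃ x, (δ : Equiv.Perm Ω) x = x := (Finset.mem_filter.1 hδ).2
  have himg : (Finset.univ.filter (fun g : P => (g : Equiv.Perm Ω) x = x)).image
      (fun h => h * δ * h⁻¹) = D := by
    apply Finset.eq_of_subset_of_card_le
    · intro ε hε
      rw [Finset.mem_image] at hε
      obtain ⟨h, _, rfl⟩ := hε
      rw [hD, Finset.mem_filter]
      refine ⟨Finset.mem_univ _, ?_⟩
      rintro ⟨y, hy⟩
      apply hδ'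
      refine ⟨(h : Equiv.Perm Ω)⁻¹ y, ?_⟩
      have hy' : (h : Equiv.Perm Ω) ((δ : Equiv.Perm Ω) ((h : Equiv.Perm Ω)⁻¹ y)) = y := hy
      calc (δ : Equiv.Perm Ω) ((h : Equiv.Perm Ω)⁻¹ y) =
          (h : Equiv.Perm Ω)⁻¹ ((h : Equiv.Perm Ω) ((δ : Equiv.Perm Ω) ((h : Equiv.Perm Ω)⁻¹ y))) := by
            simp
        _ = (h : Equiv.Perm Ω)⁻¹ y := by rw [hy']
    · rw [Finset.card_image_of_injOn, hst, hDc]
      intro h hh h' hh' hhh
      have hh1 : (h : Equiv.Perm Ω) x = x := (Finset.mem_filter.1 hh).2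
      have hh2 : (h' : Equiv.Perm Ω) x = x := (Finset.mem_filter.1 hh').2
      have hhh' : h * δ * h⁻¹ = h' * δ * h'⁻¹ := hhh
      have hcomm : (h⁻¹ * h') * δ = δ * (h⁻¹ * h') := by
        calc (h⁻¹ * h') * δ = h⁻¹ * (h' * δ * h'⁻¹) * h' := by group
          _ = h⁻¹ * (h * δ * h⁻¹) * h' := by rw [hhh']
          _ = δ * (h⁻¹ * h') := by group
      by_contra hne
      have hne' : h⁻¹ * h' ≠ 1 := by
        intro h1
        exact hne (inv_mul_eq_one.1 h1)
      have hle := hone _ hne'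
      have hfx : ((h⁻¹ * h' : P) : Equiv.Perm Ω) x = x := by
        show ((h : Equiv.Perm Ω)⁻¹) ((h' : Equiv.Perm Ω) x) = x
        rw [hh2]
        conv_lhs => rw [← hh1]
        simp
      have hfx2 : ((h⁻¹ * h' : P) : Equiv.Perm Ω) ((δ : Equiv.Perm Ω) x) = (δ : Equiv.Perm Ω) x := by
        have := congrArg (fun g : P => (g : Equiv.Perm Ω) x) hcomm
        have e1 : ((h⁻¹ * h' : P) : Equiv.Perm Ω) ((δ : Equiv.Perm Ω) x) =
          (δ : Equiv.Perm Ω) (((h⁻¹ * h' : P) : Equiv.Perm Ω) x) := this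
        rw [e1, hfx]
      have h2 : 1 < nfix ((h⁻¹ * h' : P) : Equiv.Perm Ω) := by
        rw [nfix, Finset.one_lt_card]
        refine ⟨x, Finset.mem_filter.2 ⟨Finset.mem_univ _, hfx⟩, (δ : Equiv.Perm Ω) x,
          Finset.mem_filter.2 ⟨Finset.mem_univ _, hfx2⟩, ?_⟩
        intro hx
        exact hδ' ⟨x, hx.symm⟩
      omega
  have hord : ∀ ε ∈ D, orderOf ε = orderOf δ := by
    intro ε hε
    rw [← himg, Finset.mem_image] at hε
    obtain ⟨h, _, rfl⟩ := hε
    exact (SemiconjBy.conj_mk h δ).orderOf_eq.symm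
  have hprime : ∀ p : ℕ, p.Prime → p ∣ d + 1 → p = orderOf δ := by
    intro p hp hpd
    have : Fact p.Prime := ⟨hp⟩
    obtain ⟨g, hg⟩ := exists_prime_orderOf_dvd_card p (show p ∣ Fintype.card P by
      rw [hcard]; exact hpd.mul_right _)
    rw [← hg]
    apply hord
    rw [hD, Finset.mem_filter]
    refine ⟨Finset.mem_univ _, ?_⟩
    intro hex
    have hg1 : g ≠ 1 := by
      rintro rfl
      rw [orderOf_one] at hg
      exact hp.one_lt.ne hg
    have h1 : nfix (g : Equiv.Perm Ω) = 1 := le_antisymm (hone g hg1) ((nfix_pos _).2 hex)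
    have hpow : (MulAction.toEndHom (M := Equiv.Perm Ω) (α := Ω) (g : Equiv.Perm Ω)) ^ p ^ 1 = 1 := by
      rw [← map_pow, pow_one, ← Subgroup.coe_pow, ← hg, pow_orderOf_eq_one]
      exact map_one _
    have h2 : Fintype.card Ω ≡ nfix (g : Equiv.Perm Ω) [MOD p] := by
      have e : ∀ inst : Fintype (Function.fixedPoints
          (MulAction.toEndHom (M := Equiv.Perm Ω) (α := Ω) (g : Equiv.Perm Ω))),
          @Fintype.card _ inst = nfix (g : Equiv.Perm Ω) := by
        intro inst
        rw [← @Nat.card_eq_fintype_card _ inst]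
        exact Nat.subtype_card _ (fun x => by
          rw [Finset.mem_filter]
          exact ⟨fun h => h.2, fun h => ⟨Finset.mem_univ _, h⟩⟩)
      have h := Equiv.Perm.card_fixedPoints_modEq hpow
      exact h.trans (by rw [Nat.ModEq]; exact congrArg (· % p) (e _))
    rw [h1, hdd] at h2
    have h4 : (d + 1) % p = 0 := Nat.mod_eq_zero_of_dvd hpd
    have h5 : 1 % p = 1 := Nat.mod_eq_of_lt hp.one_lt
    rw [Nat.ModEq, h4, h5] at h2
    omega
  rw [isPrimePow_iff_unique_prime_dvd]
  obtain ⟨p, hp, hpd⟩ := Nat.exists_prime_and_dvd (show d + 1 ≠ 1 by omega)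
  refine ⟨p, ⟨hp, hpd⟩, ?_⟩
  rintro q ⟨hq, hqd⟩
  rw [hprime p hp hpd, hprime q hq hqd]

end

end Pool.Agent.W61h.LT
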