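import Mathlib
import Pool.Agent.W61h.LT.Chain
import Pool.Agent.W61h.LT.Sharp

/-! # The proportion of non-derangements on cosets when the degree is not a prime power -/

namespace Pool.Agent.W61h.LT

open Finset

theorem cameron_cohen' {Ω : Type*} [Fintype Ω] [DecidableEq Ω] (P : Subgroup (Equiv.Perm Ω))
    (htr : ∀ x y : Ω, ∃ g ∈ P, g x = y) (hd : 2 ≤ Fintype.card Ω) :
    Fintype.card Ω * Nat.card {g : P // ∃ x, (g : Equiv.Perm Ω) x = x} ≤
      (Fintype.card Ω - 1) * Nat.card P ∧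
    (Fintype.card Ω * Nat.card {g : P // ∃ x, (g : Equiv.Perm Ω) x = x} =
      (Fintype.card Ω - 1) * Nat.card P → IsPrimePow (Fintype.card Ω)) := by
  classical
  have h := cameron_cohen P htr hd
  rw [← Nat.card_eq_fintype_card (α := P)] at h
  have e1 : Nat.card {g : P // ∃ x, (g : Equiv.Perm Ω) x = x} =
      (Finset.univ.filter (fun g : P => ∃ x, (g : Equiv.Perm Ω) x = x)).card :=
    Nat.subtype_card _ (fun x => by simp)
  rw [e1]
  exact h

theorem fiber_count {A P : Type*} [Group A] [Group P] (φ : A →* P)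
    (hφ : Function.Surjective φ) (p : P → Prop) :
    Nat.card {a : A // p (φ a)} = Nat.card {g : P // p g} * Nat.card φ.ker := by
  choose σ hσ using hφ
  rw [← Nat.card_prod]
  refine Nat.card_congr
    { toFun := fun a => (⟨φ a.1, a.2⟩, ⟨(σ (φ a.1))⁻¹ * a.1, ?_⟩)
      invFun := fun x => ⟨σ x.1.1 * x.2.1, ?_⟩
      left_inv := ?_
      right_inv := ?_ }
  · rw [MonoidHom.mem_ker, map_mul, map_inv, hσ, inv_mul_cancel]
  · rw [map_mul, hσ, MonoidHom.mem_ker.1 x.2.2, mul_one]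
    exact x.1.2
  · intro a
    apply Subtype.ext
    show σ (φ a.1) * ((σ (φ a.1))⁻¹ * a.1) = a.1
    group
  · rintro ⟨⟨g, hg⟩, ⟨k, hk⟩⟩
    have e : φ (σ g * k) = g := by rw [map_mul, hσ, MonoidHom.mem_ker.1 hk, mul_one]
    refine Prod.ext (Subtype.ext e) (Subtype.ext ?_)
    show (σ (φ (σ g * k)))⁻¹ * (σ g * k) = k
    rw [e]
    group

section
variable {Q : Type*} [Group Q] [Fintype Q]

theorem coset_frac (K₀ K₁ : Subgroup Q) (h10 : K₁ ≤ K₀) (d : ℕ) (hd : 2 ≤ d)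
    (h0 : (fs K₀).card = d * (fs K₁).card) (hnp : ¬ IsPrimePow d) :
    ((conjSet K₀ K₁).card : ℝ) / (fs K₀).card ≤ 1 - 1 / d - 1 / (d * (d.factorial : ℝ)) := by
  classical
  let B : Subgroup K₀ := K₁.subgroupOf K₀
  let φ₀ := MulAction.toPermHom K₀ (K₀ ⧸ B)
  let P := φ₀.range
  let φ : K₀ →* P := φ₀.rangeRestrict
  have hφ : Function.Surjective φ := φ₀.rangeRestrict_surjective
  have hK1pos : 0 < (fs K₁).card := Finset.card_pos.2 ⟨1, mem_fs.2 K₁.one_mem⟩
  have hΩ : Fintype.card (K₀ ⧸ B) = d := by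
    have h1 := Subgroup.card_eq_card_quotient_mul_card_subgroup B
    have h2 : Nat.card B = Nat.card K₁ := Nat.card_congr (Subgroup.subgroupOfEquivOfLe h10).toEquiv
    rw [h2, ← card_fs, ← card_fs, h0] at h1
    have h3 := Nat.eq_of_mul_eq_mul_right hK1pos h1
    rw [h3, Nat.card_eq_fintype_card]
  have htr : ∀ x y : K₀ ⧸ B, ∃ g ∈ P, g x = y := by
    intro x y
    obtain ⟨g, hg⟩ := MulAction.exists_smul_eq K₀ x y
    exact ⟨φ₀ g, ⟨g, rfl⟩, hg⟩
  obtain ⟨hcc, hce⟩ := cameron_cohen' P htr (by rw [hΩ]; exact hd)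
  rw [hΩ] at hcc hce
  obtain ⟨u, hu⟩ : ∃ u, Nat.card {g : P // ∃ x, (g : Equiv.Perm (K₀ ⧸ B)) x = x} = u := ⟨_, rfl⟩
  obtain ⟨π, hπ⟩ : ∃ π, Nat.card P = π := ⟨_, rfl⟩
  rw [hu, hπ] at hcc hce
  have hlt : d * u + 1 ≤ (d - 1) * π := by
    rcases Nat.lt_or_ge (d * u) ((d - 1) * π) with h | h
    · exact h
    · exact absurd (hce (le_antisymm hcc h)) hnp
  have hPle : π ≤ d.factorial := by
    have h1 : Fintype.card P ≤ Fintype.card (Equiv.Perm (K₀ ⧸ B)) :=
      Fintype.card_le_of_injective _ Subtype.coe_injective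
    rw [← hπ, Nat.card_eq_fintype_card]
    rwa [Fintype.card_perm, hΩ] at h1
  -- counting
  obtain ⟨κ, hκ⟩ : ∃ κ, Nat.card φ.ker = κ := ⟨_, rfl⟩
  have hc1 : (conjSet K₀ K₁).card = u * κ := by
    rw [← hκ, ← hu, ← fiber_count φ hφ (fun g : P => ∃ x, (g : Equiv.Perm (K₀ ⧸ B)) x = x),
      Nat.card_eq_fintype_card, Fintype.card_subtype]
    refine (Finset.card_bij (fun (a : K₀) _ => (a : Q)) ?_ ?_ ?_).symm
    · intro a ha
      rw [Finset.mem_filter] at ha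
      obtain ⟨_, x, hx⟩ := ha
      obtain ⟨k, rfl⟩ := QuotientGroup.mk_surjective x
      rw [mem_conjSet]
      refine ⟨a.2, k, k.2, ?_⟩
      have hx' : ((a * k : K₀) : K₀ ⧸ B) = (k : K₀ ⧸ B) := hx
      have h1 := QuotientGroup.eq.1 hx'.symm
      have h2 : k⁻¹ * (a * k) ∈ B := h1
      rw [Subgroup.mem_subgroupOf] at h2
      have e : ((k⁻¹ * (a * k) : K₀) : Q) = (k : Q)⁻¹ * a * k := by
        push_cast
        group
      rwa [e] at h2
    · intro a _ b _ hab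
      exact Subtype.ext hab
    · intro b hb
      rw [mem_conjSet] at hb
      obtain ⟨hb0, k, hk, hbk⟩ := hb
      refine ⟨⟨b, hb0⟩, ?_, rfl⟩
      rw [Finset.mem_filter]
      refine ⟨Finset.mem_univ _, ((⟨k, hk⟩ : K₀) : K₀ ⧸ B), ?_⟩
      show (((⟨b, hb0⟩ : K₀) * ⟨k, hk⟩ : K₀) : K₀ ⧸ B) = ((⟨k, hk⟩ : K₀) : K₀ ⧸ B)
      symm
      rw [QuotientGroup.eq, Subgroup.mem_subgroupOf]
      show k⁻¹ * (b * k) ∈ K₁
      rwa [← mul_assoc]
  have hc2 : (fs K₀).card = π * κ := by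
    rw [← hκ, ← hπ, card_fs, Subgroup.card_eq_card_quotient_mul_card_subgroup φ.ker]
    congr 1
    exact Nat.card_congr (QuotientGroup.quotientKerEquivOfSurjective φ hφ).toEquiv
  have hκ0 : 0 < κ := by rw [← hκ]; exact Nat.card_pos
  have hP0 : 0 < π := by rw [← hπ]; exact Nat.card_pos
  rw [hc1, hc2]
  push_cast
  have hκR : (0 : ℝ) < κ := by exact_mod_cast hκ0
  have hPR : (0 : ℝ) < π := by exact_mod_cast hP0
  have hdR : (0 : ℝ) < d := by
    have : 0 < d := by omega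
    exact_mod_cast this
  rw [mul_div_mul_right _ _ hκR.ne']
  have h5 : (d : ℝ) * u + 1 ≤ (d - 1) * π := by
    have e : ((d - 1 : ℕ) : ℝ) = (d : ℝ) - 1 := by
      rw [Nat.cast_sub (by omega)]
      simp
    rw [← e]
    exact_mod_cast hlt
  have h6 : (π : ℝ) ≤ d.factorial := by exact_mod_cast hPle
  have h7 : (u : ℝ) / π ≤ 1 - 1 / d - 1 / (d * (π : ℝ)) := by
    rw [div_le_iff₀ hPR]
    have : (1 - 1 / d - 1 / (d * (π : ℝ))) * π = ((d - 1) * π - 1) / d := by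
      field_simp
    rw [this, le_div_iff₀ hdR]
    linarith
  have h8 : 1 / (d * (d.factorial : ℝ)) ≤ 1 / (d * (π : ℝ)) := by
    apply one_div_le_one_div_of_le (by positivity)
    exact mul_le_mul_of_nonneg_left h6 hdR.le
  linarith

end

end Pool.Agent.W61h.LT
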